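import Mathlib
import Pool.Agent.KS6_33.BD.Bessel

/-!
# MP_f41da7_an: the count `4s + 2` fails for every derivative of positive order and every `s ≥ 1`
-/

set_option autoImplicit false

namespace Pool.Agent.Results.MP_f41da7_an.FailsForEveryOrder

open Complex

/-- The entire function `G_{ν,n}` with `J_ν^{(n)}(z) = z^{ν-n} G_{ν,n}(z)`: the zeros of `J_ν^{(n)}` are
by convention the nonzero zeros of `G_{ν,n}`. -/
noncomputable def G (ν : ℝ) (n : ℕ) (z : ℂ) : ℂ :=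
  ∑' m : ℕ, (((-1) ^ m * (∏ i ∈ Finset.range n, (ν + 2 * m - i)) /
    (m.factorial * Real.Gamma (ν + m + 1) * (2 : ℝ) ^ (ν + 2 * m)) : ℝ) : ℂ) * z ^ (2 * m)

/-- The set of nonreal zeros of `J_ν^{(n)}`. -/
def nonrealZeros (ν : ℝ) (n : ℕ) : Set ℂ := {z : ℂ | G ν n z = 0 ∧ z.im ≠ 0}

/-- The set of purely imaginary zeros of `J_ν^{(n)}`. -/
def imagZeros (ν : ℝ) (n : ℕ) : Set ℂ := {z : ℂ | G ν n z = 0 ∧ z.im ≠ 0 ∧ z.re = 0}

/-- The set `S` has exactly `N` elements, counted with multiplicity as zeros of `G_{ν,n}`. -/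
def Exactly (ν : ℝ) (n : ℕ) (S : Set ℂ) (N : ℕ) : Prop :=
  S.Finite ∧ ∑ᶠ z ∈ S, analyticOrderNatAt (G ν n) z = N

/-- The statement of Q1. -/
def Q1 : Prop :=
  ∀ n s : ℕ, ∀ ν : ℝ, (n : ℝ) - 2 * s - 2 < ν → ν < n - 2 * s - 1 →
    Exactly ν n (nonrealZeros ν n) (4 * s + 2) ∧ Exactly ν n (imagZeros ν n) 2

lemma G_eq (ν : ℝ) (n : ℕ) (z : ℂ) :
    G ν n z = (((2 : ℝ) ^ (-ν) : ℝ) : ℂ) * Pool.Agent.KS6_33.BD.G ν n z := by
  unfold G Pool.Agent.KS6_33.BD.G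
  rw [← tsum_mul_left]
  refine tsum_congr fun m => ?_
  have e1 : (2 : ℝ) ^ (ν + 2 * m) = 2 ^ ν * 2 ^ (2 * m) := by
    rw [Real.rpow_add (by norm_num)]
    congr 1
    rw [← Real.rpow_natCast]
    push_cast
    rfl
  have e2 : (z / 2) ^ (2 * m) = (((1 / 2) ^ (2 * m) : ℝ) : ℂ) * z ^ (2 * m) := by
    push_cast
    rw [← mul_pow]
    congr 1
    ring
  have e3 : ∀ (A B C : ℝ) (Z : ℂ), (A : ℂ) * ((B : ℂ) * ((C : ℂ) * Z)) = ((A * B * C : ℝ) : ℂ) * Z := by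
    intro A B C Z
    push_cast
    ring
  rw [e1, e2, Real.rpow_neg (by norm_num), e3]
  congr 2
  have h2 : (2 : ℝ) ^ ν ≠ 0 := by positivity
  have h3 : (2 : ℝ) ^ (2 * m) ≠ 0 := by positivity
  rw [one_div, inv_pow]
  field_simp

/-- For every `n ≥ 1` and every `s ≥ 1` there is `δ > 0` such that for every
`ν ∈ (n - 2s - 1 - δ, n - 2s - 1)` the function `J_ν^{(n)}` has at most `4s - 2` nonreal zeros, counted
with multiplicity.  So the count `4s + 2` of Q1 fails for every `n ≥ 1` and every `s ≥ 1`, for all `ν` in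
an interval with right end `n - 2s - 1`; Q1 is false. -/
theorem result :
    (∀ n s : ℕ, 1 ≤ n → 1 ≤ s → ∃ δ > 0, ∀ ν : ℝ,
      (n : ℝ) - 2 * s - 1 - δ < ν → ν < n - 2 * s - 1 →
      Differentiable ℂ (G ν n) ∧ G ν n 0 ≠ 0 ∧ (nonrealZeros ν n).Finite ∧
        ∑ᶠ z ∈ nonrealZeros ν n, analyticOrderNatAt (G ν n) z ≤ 4 * s - 2 ∧
        ¬ Exactly ν n (nonrealZeros ν n) (4 * s + 2)) ∧
    ¬ Q1 := by
  have h1 : ∀ n s : ℕ, 1 ≤ n → 1 ≤ s → ∃ δ > 0, ∀ ν : ℝ,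
      (n : ℝ) - 2 * s - 1 - δ < ν → ν < n - 2 * s - 1 →
      Differentiable ℂ (G ν n) ∧ G ν n 0 ≠ 0 ∧ (nonrealZeros ν n).Finite ∧
        ∑ᶠ z ∈ nonrealZeros ν n, analyticOrderNatAt (G ν n) z ≤ 4 * s - 2 ∧
        ¬ Exactly ν n (nonrealZeros ν n) (4 * s + 2) := by
    intro n s hn hs
    obtain ⟨δ, hδ, H⟩ := Pool.Agent.KS6_33.BD.main (n := n) (t := 2 * s + 1) hn (by omega)
    refine ⟨δ, hδ, fun ν ha hb => ?_⟩
    obtain ⟨hd, h0, hc⟩ := H ν (by push_cast; linarith) (by push_cast; linarith)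
    have hκ : (((2 : ℝ) ^ (-ν) : ℝ) : ℂ) ≠ 0 := by
      have : (2 : ℝ) ^ (-ν) ≠ 0 := by positivity
      exact_mod_cast this
    have hc' := hc _ hκ
    have hGe : (fun z => (((2 : ℝ) ^ (-ν) : ℝ) : ℂ) * Pool.Agent.KS6_33.BD.G ν n z) = G ν n :=
      (funext (G_eq ν n)).symm
    rw [hGe] at hc'
    have hd' : Differentiable ℂ (G ν n) := by
      rw [← hGe]; exact hd.const_mul _
    have h0' : G ν n 0 ≠ 0 := by
      rw [G_eq]; exact mul_ne_zero hκ h0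
    obtain ⟨hfin, hle⟩ := Pool.Agent.KS6_33.BD.finite_count hd' h0' hc'
    have hle' : ∑ᶠ z ∈ nonrealZeros ν n, analyticOrderNatAt (G ν n) z ≤ 2 * (2 * s + 1 - 2) := hle
    refine ⟨hd', h0', hfin, by omega, ?_⟩
    rintro ⟨_, he⟩
    omega
  refine ⟨h1, ?_⟩
  intro hQ
  obtain ⟨δ, hδ, H⟩ := h1 1 1 le_rfl le_rfl
  have e1 : ((1 : ℕ) : ℝ) - 2 * ((1 : ℕ) : ℝ) = -1 := by push_cast; ring
  have hmin : 0 < min (1 / 2) (δ / 2) := lt_min (by norm_num) (by linarith)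
  have hmin1 : min (1 / 2) (δ / 2) ≤ 1 / 2 := min_le_left _ _
  have hmin2 : min (1 / 2) (δ / 2) ≤ δ / 2 := min_le_right _ _
  obtain ⟨_, _, _, _, hne⟩ := H (-2 - min (1 / 2) (δ / 2)) (by rw [e1]; linarith)
    (by rw [e1]; linarith)
  exact hne (hQ 1 1 _ (by rw [e1]; linarith) (by rw [e1]; linarith)).1

end Pool.Agent.Results.MP_f41da7_an.FailsForEveryOrder
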